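import Mathlib
import Pool.Agent.Lib.MP_3d22c5_an.OwnDefs
import Pool.Agent.Lib.MP_3d22c5_an.OwnMain

set_option autoImplicit false

/-!
Anosov automorphisms of rational forms of graph Lie algebras.

`GraphLie K G` is the Lie algebra `n_G^K` of the problem, `IsRationalForm m` says that the
`ℚ`-subalgebra `m` of a real Lie algebra is a rational form, and `IsAnosov M` that the rational Lie
algebra `M` has an Anosov automorphism. For every finite simple graph `G`, the standard form
`n_G^ℚ` is Anosov if and only if every rational form of `n_G^ℝ` is.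
-/

namespace Pool.Agent.Results.MP_3d22c5_an.RationalForms

open Pool.Agent.Lib.MP_3d22c5_an.Own

theorem result (S : Type) [Finite S] (G : SimpleGraph S) :
    List.TFAE [
      IsAnosov (GraphLie ℚ G),
      ∀ m : LieSubalgebra ℚ (GraphLie ℝ G), IsRationalForm m → IsAnosov m,
      (∀ v, ∃ v', v' ≠ v ∧ Twins G v v') ∧
        ∀ v w, G.Adj v w → Twins G v w → ∃ u, u ≠ v ∧ u ≠ w ∧ Twins G u v] :=
  main G

end Pool.Agent.Results.MP_3d22c5_an.RationalForms
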